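import Mathlib
import Pool.Agent.Helper810_Grid.Final

/-!
The constant `3.9` is grid-forcing: for every `t ≥ 1`, every graph of average degree at least
`3.9 t ^ 2` has the `t × t` grid as a minor.
-/

set_option autoImplicit false

namespace Pool.Agent.Results.MP_7ab33c_co.GridForcing39

open Pool.Agent.Helper810.Grid

theorem result : GridForcing (39 / 10) := gridForcing39

end Pool.Agent.Results.MP_7ab33c_co.GridForcing39
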